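import Mathlib
import Pool.Agent.H421Bohr.Base

set_option autoImplicit false

namespace Pool.Agent.Results.MP_3587f1_an.SparseBlocks

open Pool.Agent.H421Bohr

lemma bound {A : Finset ℕ} (hA : ∀ a ∈ A, 0 < a) (hn : 2 ≤ A.card) {x : ℕ} (hx : 0 < x) :
    ∃ θ : ℝ, (1 / 3000000000 : ℝ) * max (((A.image (Nat.log 2)).card : ℝ) / (Real.log A.card) ^ 4)
        ((A.filter (fun a => x ≤ a ∧ a < 2 * x)).card : ℝ) ≤ ∑ a ∈ A, Real.sin ((a : ℝ) * θ) := by
  have hn' : (1:ℝ) < A.card := by exact_mod_cast (by omega : 1 < A.card)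
  have hlog : 0 < Real.log A.card := Real.log_pos hn'
  rcases le_total (((A.image (Nat.log 2)).card : ℝ) / (Real.log A.card) ^ 4)
      ((A.filter (fun a => x ≤ a ∧ a < 2 * x)).card : ℝ) with h | h
  · rw [max_eq_right h]
    obtain ⟨θ, hθ⟩ := sine_block hA hx
    refine ⟨θ, le_trans ?_ hθ⟩
    have h1 : (1 / 3000000000 : ℝ) ≤ (Real.pi)⁻¹ := by
      rw [one_div]
      exact inv_anti₀ Real.pi_pos (by linarith [Real.pi_lt_four])
    have h2 : (0 : ℝ) ≤ ((A.filter (fun a => x ≤ a ∧ a < 2 * x)).card : ℝ) := Nat.cast_nonneg _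
    have h3 := mul_le_mul_of_nonneg_right h1 h2
    have h4 : ((A.filter (fun a => x ≤ a ∧ a < 2 * x)).card : ℝ) / Real.pi =
        (Real.pi)⁻¹ * ((A.filter (fun a => x ≤ a ∧ a < 2 * x)).card : ℝ) := by
      rw [div_eq_mul_inv]; ring
    rw [h4]
    exact h3
  · rw [max_eq_left h]
    obtain ⟨θ, hθ⟩ := sine_main hA hn
    refine ⟨θ, ?_⟩
    rw [one_div, inv_mul_le_iff₀ (by norm_num), div_le_iff₀ (by positivity)]
    linarith

/-- For every finite set `A` of `n ≥ 2` positive integers the sine sum is at least a constant times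
`max (D / (log n)^4) B` somewhere, where `D` is the number of dyadic intervals `[2^i, 2^(i+1))` met by
`A` and `B` is the largest number of elements of `A` in an interval `[x, 2x)`. Consequently Bohr's lower
bound `n^(1/2 + c)` holds for all sets with `D ≥ n^(1/2 + δ)` or `B ≥ n^(1/2 + δ)`. -/
theorem result :
    (∃ c : ℝ, 0 < c ∧ ∀ A : Finset ℕ, (∀ a ∈ A, 0 < a) → 2 ≤ A.card → ∀ x : ℕ, 0 < x →
      ∃ θ : ℝ, c * max (((A.image (Nat.log 2)).card : ℝ) / (Real.log A.card) ^ 4)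
        ((A.filter (fun a => x ≤ a ∧ a < 2 * x)).card : ℝ) ≤ ∑ a ∈ A, Real.sin ((a : ℝ) * θ)) ∧
    (∀ δ : ℝ, 0 < δ → ∃ c : ℝ, 0 < c ∧ ∃ N : ℕ, ∀ A : Finset ℕ, (∀ a ∈ A, 0 < a) → N ≤ A.card →
      ((A.card : ℝ) ^ ((1 : ℝ) / 2 + δ) ≤ ((A.image (Nat.log 2)).card : ℝ) ∨
        ∃ x : ℕ, 0 < x ∧
          (A.card : ℝ) ^ ((1 : ℝ) / 2 + δ) ≤ ((A.filter (fun a => x ≤ a ∧ a < 2 * x)).card : ℝ)) →
      ∃ θ : ℝ, (A.card : ℝ) ^ ((1 : ℝ) / 2 + c) ≤ |∑ a ∈ A, Real.sin ((a : ℝ) * θ)|) := by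
  refine ⟨⟨1 / 3000000000, by norm_num, fun A hA hn x hx => bound hA hn hx⟩, ?_⟩
  intro δ hδ
  refine ⟨δ / 2, by positivity, ?_⟩
  -- `log^4 n` is eventually below `n^(δ/2) / C`
  have hlim : ∀ᶠ y : ℝ in Filter.atTop, 3000000000 * (Real.log y) ^ 4 ≤ y ^ (δ / 2) := by
    have h1 := isLittleO_log_rpow_rpow_atTop 4 (show 0 < δ / 2 by positivity)
    have h2 := h1.bound (show (0:ℝ) < 1 / 3000000000 by norm_num)
    filter_upwards [h2, Filter.eventually_ge_atTop (1:ℝ)] with y hy hy1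
    rw [Real.norm_eq_abs, Real.norm_eq_abs, abs_of_nonneg (Real.rpow_nonneg (Real.log_nonneg hy1) _),
      abs_of_nonneg (Real.rpow_nonneg (by linarith) _)] at hy
    have h3 : (Real.log y) ^ (4:ℝ) = (Real.log y) ^ 4 := by
      rw [show (4:ℝ) = ((4:ℕ):ℝ) by norm_num, Real.rpow_natCast]
    rw [h3] at hy
    linarith
  obtain ⟨y₀, hy₀⟩ := Filter.eventually_atTop.1 hlim
  obtain ⟨N, hN⟩ := exists_nat_ge (max y₀ 3)
  refine ⟨N, fun A hA hNA hcase => ?_⟩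
  have hNr : (N : ℝ) ≤ A.card := by exact_mod_cast hNA
  have hny : y₀ ≤ (A.card : ℝ) := (le_max_left _ _).trans (hN.trans hNr)
  have hn3 : (3:ℝ) ≤ (A.card : ℝ) := (le_max_right _ _).trans (hN.trans hNr)
  have hn2 : 2 ≤ A.card := by
    have : (2:ℝ) ≤ (A.card : ℝ) := by linarith
    exact_mod_cast this
  have hkey := hy₀ _ hny
  have hlog : 1 ≤ Real.log A.card := by
    rw [Real.le_log_iff_exp_le (by linarith)]
    have := Real.exp_one_lt_d9
    linarith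
  have hsplit : (A.card : ℝ) ^ ((1 : ℝ) / 2 + δ) =
      (A.card : ℝ) ^ ((1 : ℝ) / 2 + δ / 2) * (A.card : ℝ) ^ (δ / 2) := by
    rw [← Real.rpow_add (by linarith)]; congr 1; ring
  have hpos : 0 < (A.card : ℝ) ^ ((1 : ℝ) / 2 + δ / 2) := Real.rpow_pos_of_pos (by linarith) _
  rcases hcase with h | ⟨x, hx, h⟩
  · obtain ⟨θ, hθ⟩ := bound hA hn2 (x := 1) one_pos
    refine ⟨θ, le_trans ?_ (le_abs_self _)⟩
    refine le_trans ?_ hθ
    have h1 : (A.card : ℝ) ^ ((1 : ℝ) / 2 + δ / 2) * (3000000000 * (Real.log A.card) ^ 4) ≤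
        ((A.image (Nat.log 2)).card : ℝ) := by
      refine le_trans ?_ h
      rw [hsplit]
      exact mul_le_mul_of_nonneg_left hkey hpos.le
    have h2 : (A.card : ℝ) ^ ((1 : ℝ) / 2 + δ / 2) * 3000000000 ≤
        ((A.image (Nat.log 2)).card : ℝ) / (Real.log A.card) ^ 4 := by
      rw [le_div_iff₀ (by positivity)]; linarith
    have h3 := le_max_left (((A.image (Nat.log 2)).card : ℝ) / (Real.log A.card) ^ 4)
      ((A.filter (fun a => 1 ≤ a ∧ a < 2 * 1)).card : ℝ)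
    linarith
  · obtain ⟨θ, hθ⟩ := bound hA hn2 hx
    refine ⟨θ, le_trans ?_ (le_abs_self _)⟩
    refine le_trans ?_ hθ
    have hlog4 : 1 ≤ (Real.log A.card) ^ 4 := one_le_pow₀ hlog
    have h1 : (A.card : ℝ) ^ ((1 : ℝ) / 2 + δ / 2) * 3000000000 ≤
        ((A.filter (fun a => x ≤ a ∧ a < 2 * x)).card : ℝ) := by
      refine le_trans ?_ h
      rw [hsplit]
      refine mul_le_mul_of_nonneg_left (le_trans ?_ hkey) hpos.le
      linarith
    have h3 := le_max_right (((A.image (Nat.log 2)).card : ℝ) / (Real.log A.card) ^ 4)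
      ((A.filter (fun a => x ≤ a ∧ a < 2 * x)).card : ℝ)
    linarith

end Pool.Agent.Results.MP_3587f1_an.SparseBlocks
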